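import Pool.Agent.K3h63.IQ.Stm2

/-!
# Project IQ (helper63), brick NIL1 (helper58)
-/

set_option autoImplicit false
set_option linter.unusedSectionVars false

open CategoryTheory Limits MonoidalCategory
open Pool.Agent.Y112.SR Pool.Agent.Y112.KD Pool.Agent.Y112.SC Pool.Agent.R905
open Pool.Agent.Y116.MT (tr)
open Pool.Agent.K3h63.IQ

namespace Pool.Agent.K3h58.IQ

universe v u w

section

variable {C : Type u} [Category.{v} C] [Preadditive C] [Linear ℚ C]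
  [MonoidalCategory C] [MonoidalPreadditive C] [MonoidalLinear ℚ C] [SymmetricCategory C]
  {G : Type} [Group G] [Fintype G] {M N P : C} {ρ : G →* End M} {τ : G →* End N}
  {j : P ⟶ M ⊗ N} {q : M ⊗ N ⟶ P}

lemma wh_tensor (f a : M ⟶ M) (t : N ⟶ N) : (f ▷ N) ≫ (a ⊗ₘ t) = (f ≫ a) ⊗ₘ t := by
  rw [MonoidalCategory.tensorHom_def, MonoidalCategory.tensorHom_def, comp_whiskerRight,
    Category.assoc]

lemma tensor_wh (f a : M ⟶ M) (t : N ⟶ N) : (a ⊗ₘ t) ≫ (f ▷ N) = (a ≫ f) ⊗ₘ t := by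
  rw [MonoidalCategory.tensorHom_def, MonoidalCategory.tensorHom_def, comp_whiskerRight,
    Category.assoc, Category.assoc, whisker_exchange]

lemma comm_proj (hP : IsInv ρ τ j q) (f : M ⟶ M)
    (h : ∀ g, f ≫ ((ρ g : End M) : M ⟶ M) = ((ρ g : End M) : M ⟶ M) ≫ f) :
    (f ▷ N) ≫ (q ≫ j) = (q ≫ j) ≫ (f ▷ N) := by
  rw [hP.proj, Linear.comp_smul, Linear.smul_comp, Preadditive.comp_sum, Preadditive.sum_comp]
  congr 1
  refine Finset.sum_congr rfl fun g _ => ?_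
  rw [wh_tensor, tensor_wh, h g]

lemma pow_tw (hP : IsInv ρ τ j q) (f : End M) (h : ∀ g, f * ρ g = ρ g * f) (k : ℕ) :
    ((show End P from j ≫ ((f : M ⟶ M) ▷ N) ≫ q) ^ k : End P) =
      (show End P from j ≫ (((f ^ k : End M) : M ⟶ M) ▷ N) ≫ q) := by
  induction k with
  | zero =>
    rw [pow_zero, pow_zero]
    change 𝟙 P = j ≫ ((𝟙 M : M ⟶ M) ▷ N) ≫ q
    rw [id_whiskerRight, Category.id_comp, hP.one]
  | succ k ih =>
    rw [pow_succ, ih]
    have hc : ∀ g, ((f ^ k : End M) : M ⟶ M) ≫ ((ρ g : End M) : M ⟶ M) =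
        ((ρ g : End M) : M ⟶ M) ≫ ((f ^ k : End M) : M ⟶ M) := by
      intro g
      have h1 : Commute f (ρ g) := h g
      have h2 : Commute (f ^ k) (ρ g) := h1.pow_left k
      exact h2.symm.eq
    have h3 := comm_proj hP _ hc
    have h4 : ((f ^ (k + 1) : End M) : M ⟶ M) = (f : M ⟶ M) ≫ ((f ^ k : End M) : M ⟶ M) := by
      rw [pow_succ]
      rfl
    change (j ≫ ((f : M ⟶ M) ▷ N) ≫ q) ≫ (j ≫ (((f ^ k : End M) : M ⟶ M) ▷ N) ≫ q) =
      j ≫ (((f ^ (k + 1) : End M) : M ⟶ M) ▷ N) ≫ q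
    rw [h4, comp_whiskerRight]
    have h5 : q ≫ j ≫ (((f ^ k : End M) : M ⟶ M) ▷ N) ≫ q = (((f ^ k : End M) : M ⟶ M) ▷ N) ≫ q := by
      calc q ≫ j ≫ (((f ^ k : End M) : M ⟶ M) ▷ N) ≫ q
          = ((q ≫ j) ≫ (((f ^ k : End M) : M ⟶ M) ▷ N)) ≫ q := by simp only [Category.assoc]
        _ = ((((f ^ k : End M) : M ⟶ M) ▷ N) ≫ (q ≫ j)) ≫ q := by rw [h3]
        _ = (((f ^ k : End M) : M ⟶ M) ▷ N) ≫ q := by
          simp only [Category.assoc]
          rw [hP.one, Category.comp_id]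
    simp only [Category.assoc]
    rw [h5]

end

section

variable {C : Type u} [Category.{v} C] [Preadditive C] [Linear ℚ C]
  [MonoidalCategory C] [MonoidalPreadditive C] [MonoidalLinear ℚ C] [SymmetricCategory C]
  {K : Type w} [Field K] (R : SuperRealisation C K)

lemma map_whisker_zero {Q X : C} (f : Q ⟶ Q) (h : R.H.map f = 0) : R.H.map (f ▷ X) = 0 := by
  rw [map_whiskerRight_eq, h, bx_zero_left]

end

section

variable {C : Type u} [Category.{v} C] [Preadditive C] [Linear ℚ C]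
  [MonoidalCategory C] [MonoidalPreadditive C] [MonoidalLinear ℚ C] [SymmetricCategory C]
  [RightRigidCategory C]
  {G : Type} [Group G] [Fintype G] {M N P : C} {ρ : G →* End M} {τ : G →* End N}
  {j : P ⟶ M ⊗ N} {q : M ⊗ N ⟶ P}

lemma zero_of (hU : UnitQ C) (hP : IsInv ρ τ j q) (y : N ⟶ N) (f : M ⟶ M)
    (h : ∀ g, f ≫ ((ρ g : End M) : M ⟶ M) = ((ρ g : End M) : M ⟶ M) ≫ f)
    (h0 : j ≫ (f ▷ N) ≫ q = 0) :
    f ≫ ((∑ g, trq hU N (((τ g : End N) : N ⟶ N) ≫ y) • ρ g : End M) : M ⟶ M) = 0 := by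
  have h1 := comm_proj hP f h
  have h2 : (f ▷ N) ≫ (q ≫ j) = 0 := by
    have e : q ≫ (j ≫ (f ▷ N) ≫ q) ≫ j = (f ▷ N) ≫ (q ≫ j) := by
      calc q ≫ (j ≫ (f ▷ N) ≫ q) ≫ j = ((q ≫ j) ≫ (f ▷ N)) ≫ (q ≫ j) := by
            simp only [Category.assoc]
        _ = ((f ▷ N) ≫ (q ≫ j)) ≫ (q ≫ j) := by rw [h1]
        _ = (f ▷ N) ≫ (q ≫ j) := by
          simp only [Category.assoc]
          rw [← Category.assoc j q, hP.one, Category.id_comp]
    rw [← e, h0, zero_comp, comp_zero]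
  have hc : (Fintype.card G : ℚ) ≠ 0 := by exact_mod_cast Fintype.card_ne_zero
  have h3 : ∑ g : G, ((f ≫ ((ρ g : End M) : M ⟶ M)) ⊗ₘ ((τ g : End N) : N ⟶ N)) = 0 := by
    have e := h2
    rw [hP.proj, Linear.comp_smul, Preadditive.comp_sum] at e
    have e' := congrArg (fun z => (Fintype.card G : ℚ) • z) e
    simp only [smul_smul, mul_inv_cancel₀ hc, one_smul, smul_zero] at e'
    rw [← e']
    exact Finset.sum_congr rfl fun g _ => (wh_tensor _ _ _).symm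
  have h4 : ∑ g : G, ((f ≫ ((ρ g : End M) : M ⟶ M)) ⊗ₘ (((τ g : End N) : N ⟶ N) ≫ y)) = 0 := by
    have e : ∀ g : G, ((f ≫ ((ρ g : End M) : M ⟶ M)) ⊗ₘ (((τ g : End N) : N ⟶ N) ≫ y)) =
        ((f ≫ ((ρ g : End M) : M ⟶ M)) ⊗ₘ ((τ g : End N) : N ⟶ N)) ≫ (M ◁ y) := by
      intro g
      rw [MonoidalCategory.tensorHom_def, MonoidalCategory.tensorHom_def,
        MonoidalCategory.whiskerLeft_comp, Category.assoc]
    simp only [e]
    rw [← Preadditive.sum_comp, h3, zero_comp]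
  have h5 := congrArg (ptrL M N) h4
  rw [map_sum, map_zero] at h5
  have h6 : ∀ g : G, ptrL M N
      ((f ≫ ((ρ g : End M) : M ⟶ M)) ⊗ₘ (((τ g : End N) : N ⟶ N) ≫ y)) =
      trq hU N (((τ g : End N) : N ⟶ N) ≫ y) • (f ≫ ((ρ g : End M) : M ⟶ M)) := fun g =>
    ptr_tensor _ _ _ (trq_spec hU (((τ g : End N) : N ⟶ N) ≫ y : End N))
  have h8 := (Finset.sum_congr rfl fun g _ => h6 g).symm.trans h5
  have h7 : ((∑ g, trq hU N (((τ g : End N) : N ⟶ N) ≫ y) • ρ g : End M) : M ⟶ M) =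
      ∑ g, trq hU N (((τ g : End N) : N ⟶ N) ≫ y) • ((ρ g : End M) : M ⟶ M) := rfl
  rw [h7, Preadditive.comp_sum]
  exact (Finset.sum_congr rfl fun g _ => Linear.comp_smul _ _ _ _ _ _).trans h8

end

theorem t_NIL1 : S_NIL1.{v, u, w} := by
  intro C _ _ _ _ _ _ _ _ K _ R hU G _ _ M N P ρ τ j q hP y hκ hnil f hf hc
  obtain ⟨k, hk⟩ := hnil (show End P from j ≫ ((f : M ⟶ M) ▷ N) ≫ q) (by
    change R.H.map (j ≫ ((f : M ⟶ M) ▷ N) ≫ q) = 0
    rw [Functor.map_comp, Functor.map_comp, map_whisker_zero R f hf, zero_comp, comp_zero])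
  rw [pow_tw hP f hc k] at hk
  refine ⟨k, ?_⟩
  have hck : ∀ g, ((f ^ k : End M) : M ⟶ M) ≫ ((ρ g : End M) : M ⟶ M) =
      ((ρ g : End M) : M ⟶ M) ≫ ((f ^ k : End M) : M ⟶ M) := by
    intro g
    have h1 : Commute f (ρ g) := hc g
    have h2 : Commute (f ^ k) (ρ g) := h1.pow_left k
    exact h2.symm.eq
  have h3 := zero_of hU hP y ((f ^ k : End M) : M ⟶ M) hck hk
  exact (hκ.mul_right_eq_zero).1 h3

end Pool.Agent.K3h58.IQ
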